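import Pool.Agent.H964.CW.Stm

/-! # Project CW (helper964): assembly of the lower tail for point starts -/

set_option autoImplicit false

open MeasureTheory ProbabilityTheory Filter Finset

namespace Pool.Agent.H249.CW

open Pool.Agent.H964.QC Pool.Agent.H964.CW

/-- the conclusion of LTC for a given constant -/
def LTCc (C : ℝ) : Prop :=
  ∀ (C0 : ℝ) (N0 M : ℕ) [NeZero M] (W : Wlk (ZMod M × ZMod M) C0 N0), IsTor W →
  ∀ (Ω : Type) [MeasurableSpace Ω] (P : Measure Ω) [IsProbabilityMeasure P] (s2 κ s' : ℝ)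
    (η : ℕ → ZMod M × ZMod M → Ω → ℝ) (w : ZMod M × ZMod M → ℝ) (t T m a : ℕ) (lo hi : Fin m → ℤ)
    (Lg a0 μ0 D : ℝ), 0 ≤ s2 → Noise P s2 κ η → 1 ≤ T → 1 ≤ m → 1 ≤ a → t + T ≤ N0 →
  (∀ z, 0 ≤ w z) → (∀ z, w z ≠ 0 → |X1 z| ≤ t) → (∀ i, lo i ≤ hi i) → (∀ i j, i < j → hi i + a ≤ lo j) →
  Lg = Real.log (2 + 64 * (T : ℝ) / (a : ℝ) ^ 2) → 80 * m * Real.sqrt Lg / a ≤ a0 → a0 ≤ 1 / 2 →
  s' = s2 / (1 - a0 ^ 2) → 0 < μ0 → (∀ i, μ0 ≤ ∑ z, strip w (lo i) (hi i) z) → 1 ≤ D →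
  (∀ i, s' * UU s' T * ∑ n ∈ Finset.Icc 1 T, bb W a0 (strip w (lo i) (hi i)) n ≤
    (D - 1) * (∑ z, strip w (lo i) (hi i) z) ^ 2) →
  P.real {ω | ∑ z, w z * Zr W (cfg η ω) T z < μ0 / 4 * Real.exp (-(C * (m : ℝ) ^ 2 * Lg ^ 2))} ≤
    (1 - 1 / (16 * D)) ^ m

theorem rr_nn (n : ℕ) : 0 ≤ rr n := by
  unfold rr
  positivity

theorem RR_mono {a b : ℕ} (h : a ≤ b) : RR a ≤ RR b := by
  unfold RR
  apply Finset.sum_le_sum_of_subset_of_nonneg
  · exact Finset.Icc_subset_Icc le_rfl h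
  · intro i _ _
    exact rr_nn i

theorem RR_nn (n : ℕ) : 0 ≤ RR n := by
  unfold RR
  exact Finset.sum_nonneg fun i _ => rr_nn i

theorem UU_ge (s : ℝ) (hs : 0 ≤ s) (n : ℕ) : 1 ≤ UU s n := by
  induction n using Nat.strong_induction_on with
  | _ n ih =>
    rw [UU]
    have : 0 ≤ s * ∑ i : Fin n, rr (n - i) * UU s i := by
      apply mul_nonneg hs
      apply Finset.sum_nonneg
      intro i _
      apply mul_nonneg (rr_nn _)
      have := ih i i.2
      linarith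
    linarith

theorem four_le_exp : (4 : ℝ) ≤ Real.exp 2 := by
  have h := Real.quadratic_le_exp_of_nonneg (x := 2) (by norm_num)
  norm_num at h
  linarith

theorem four_pow (n : ℕ) : (4 : ℝ) ^ n ≤ Real.exp (2 * n) := by
  have h : Real.exp (2 * n) = Real.exp 2 ^ n := by
    rw [← Real.exp_nat_mul]
    congr 1
    ring
  rw [h]
  exact pow_le_pow_left₀ (by norm_num) four_le_exp n

variable {C0 : ℝ} {N0 M : ℕ} [NeZero M]

/-- short times: follow one path -/
theorem short (hPTH : S_PTH) (W : Wlk (ZMod M × ZMod M) C0 N0) (hW : IsTor W)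
    {Ω : Type} [MeasurableSpace Ω] (P : Measure Ω) [IsProbabilityMeasure P] (s2 κ : ℝ)
    (η : ℕ → ZMod M × ZMod M → Ω → ℝ) (y : ZMod M × ZMod M) (t T : ℕ) (u : ℝ)
    (hη : NoiseI P s2 κ η) (h1 : |X1 y| ≤ t) (htT : t + T ≤ N0) :
    P.real {ω | Zr W (cfg η ω) T y < Real.exp (-u)} ≤ Real.exp (3 * T - u) := by
  obtain ⟨hP1, hP2, hP3⟩ := hPTH C0 N0 M W hW
  obtain ⟨p, hp1, hp2, -, -⟩ := hP2 y (2 * T) 0 (even_two_mul T) ⟨0, rfl⟩ (Nat.zero_le _) (by
    push_cast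
    have : (t : ℤ) + T ≤ N0 := by exact_mod_cast htT
    have h0 : (0 : ℤ) ≤ t := by positivity
    linarith)
  set q : ℕ → ZMod M × ZMod M := fun k => p (T + k) with hq
  have hq1 : q T = y := by
    rw [hq]
    show p (T + T) = y
    rw [← two_mul]
    exact hp1
  have hq2 : ∀ k, k < T → W.K 1 (q (k + 1)) (q k) = 1 / 4 := by
    intro k hk
    have := hp2 (T + k) (by omega)
    exact this
  have h3 := hP3 Ω P s2 κ η hη 0 T q (u - 2 * T)
  have e : (T : ℝ) - (u - 2 * T) = 3 * T - u := by ring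
  rw [e] at h3
  refine le_trans (measureReal_mono ?_ (measure_ne_top P _)) h3
  intro ω hω
  simp only [Set.mem_ofPred_eq] at hω ⊢
  have h4 := hP1 (cfg η ω) 0 T q (fun n v => hη.1.gt n v ω) hq2
  rw [hq1, zero_add] at h4
  have h5 : Zr W (cfg η ω) 0 (q 0) = 1 := rfl
  rw [h5, mul_one] at h4
  have h6 : (1 / 4 : ℝ) ^ T * ∏ k ∈ Finset.range T, (1 + η (0 + k + 1) (q k) ω) < Real.exp (-u) :=
    lt_of_le_of_lt h4 hω
  have h7 : (4 : ℝ) ^ T * (1 / 4 : ℝ) ^ T = 1 := by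
    rw [← mul_pow]
    norm_num
  have h8 : (0 : ℝ) < 4 ^ T := by positivity
  calc ∏ k ∈ Finset.range T, (1 + η (0 + k + 1) (q k) ω)
      = 4 ^ T * ((1 / 4 : ℝ) ^ T * ∏ k ∈ Finset.range T, (1 + η (0 + k + 1) (q k) ω)) := by
        rw [← mul_assoc, h7, one_mul]
    _ < 4 ^ T * Real.exp (-u) := mul_lt_mul_of_pos_left h6 h8
    _ ≤ Real.exp (2 * T) * Real.exp (-u) :=
        mul_le_mul_of_nonneg_right (four_pow T) (Real.exp_pos _).le
    _ = Real.exp (-(u - 2 * T)) := by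
        rw [← Real.exp_add]
        congr 1
        ring

theorem core {CL : ℝ} (hCL1 : 1 ≤ CL) (hL : LTCc CL) (hPTH : S_PTH) (hMEAS : S_MEAS)
    (W : Wlk (ZMod M × ZMod M) C0 N0) (hW : IsTor W)
    {Ω : Type} [MeasurableSpace Ω] (P : Measure Ω) [IsProbabilityMeasure P] (s2 κ s' : ℝ)
    (η : ℕ → ZMod M × ZMod M → Ω → ℝ) (y : ZMod M × ZMod M) (t T m b : ℕ) (u Λ a0 D : ℝ)
    (hs2 : 0 < s2) (hη : NoiseI P s2 κ η) (h1 : |X1 y| ≤ t) (htT : t + T ≤ N0)
    (hm : 1 ≤ m) (hb : 2 ≤ b) (hbe : Even b) (hΛ : Real.log (2 + 64 * (T : ℝ)) ≤ Λ)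
    (ha : 80 * m * Real.sqrt Λ / b ≤ a0) (ha' : a0 ≤ 1 / 2) (hs' : s' = s2 / (1 - a0 ^ 2))
    (hD : 1 ≤ D) (hU : ∀ T' ≤ T, s' * UU s' T' * RR T' ≤ D - 1)
    (hcost : 4 * ((m : ℝ) * b) + CL * (m : ℝ) ^ 2 * Λ ^ 2 + Real.log (4 * m) ≤ u) :
    P.real {ω | Zr W (cfg η ω) T y < Real.exp (-u)} ≤ 2 * Real.exp (-((m : ℝ) / (16 * D))) := by
  have hmR : (1 : ℝ) ≤ m := by exact_mod_cast hm
  have hbR : (2 : ℝ) ≤ b := by exact_mod_cast hb
  have hlog4 : 0 ≤ Real.log (4 * m) := Real.log_nonneg (by linarith)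
  have hΛ0 : 0 ≤ CL * (m : ℝ) ^ 2 * Λ ^ 2 := by positivity
  have hmb : 4 * ((m : ℝ) * b) ≤ u := by linarith
  have hmb2 : (m : ℝ) * 2 ≤ (m : ℝ) * b := mul_le_mul_of_nonneg_left hbR (by linarith)
  have hmD : (m : ℝ) / (16 * D) ≤ m / 16 := by
    apply div_le_div_of_nonneg_left (by linarith) (by norm_num) (by linarith)
  by_cases hT : T ≤ m * b
  · refine (short hPTH W hW P s2 κ η y t T u hη h1 htT).trans ?_
    have hTR : (T : ℝ) ≤ (m : ℝ) * b := by exact_mod_cast hT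
    have h2 : Real.exp (3 * T - u) ≤ Real.exp (-((m : ℝ) / (16 * D))) := by
      apply Real.exp_le_exp.2
      linarith
    have h3 := Real.exp_pos (-((m : ℝ) / (16 * D)))
    linarith
  push Not at hT
  -- long times
  obtain ⟨hP1, hP2, hP3⟩ := hPTH C0 N0 M W hW
  obtain ⟨T', hT'⟩ : ∃ T', T = T' + m * b := ⟨T - m * b, by omega⟩
  have hT'1 : 1 ≤ T' := by omega
  set τ := m * b with hτ
  have hτe : Even τ := hbe.mul_left m
  have hib : ∀ i : Fin m, (i : ℕ) * b ≤ τ := fun i => Nat.mul_le_mul_right b i.2.le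
  have hX : |X1 y| + (τ : ℤ) ≤ 2 * N0 := by
    have h2 : (t : ℤ) + T ≤ N0 := by exact_mod_cast htT
    have h3 : (τ : ℤ) ≤ T := by exact_mod_cast hT.le
    have h4 : (0 : ℤ) ≤ N0 := by positivity
    linarith
  have hpath : ∀ i : Fin m, ∃ p : ℕ → ZMod M × ZMod M, p τ = y ∧
      (∀ k, k < τ → W.K 1 (p (k + 1)) (p k) = 1 / 4) ∧
      X1 (p 0) = X1 y + ((i : ℕ) * b : ℕ) ∧ X2 (p 0) = X2 y := fun i =>
    hP2 y τ ((i : ℕ) * b) hτe (hbe.mul_left _) (hib i) hX
  choose p hp1 hp2 hp3 hp4 using hpath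
  set z : Fin m → ZMod M × ZMod M := fun i => p i 0 with hz
  set w : ZMod M × ZMod M → ℝ := fun v => ∑ i : Fin m, if v = z i then (1 / (m : ℝ)) else 0 with hw
  have hm0 : (0 : ℝ) < m := by linarith
  have hw0 : ∀ v, 0 ≤ w v := by
    intro v
    rw [hw]
    apply Finset.sum_nonneg
    intro i _
    split_ifs
    · positivity
    · exact le_rfl
  have hwz : ∀ i, 1 / (m : ℝ) ≤ w (z i) := by
    intro i
    have h2 : (if z i = z i then (1 / (m : ℝ)) else 0) ≤ w (z i) := by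
      rw [hw]
      exact Finset.single_le_sum (f := fun j : Fin m => if z i = z j then (1 / (m : ℝ)) else 0)
        (fun j _ => by
          show (0 : ℝ) ≤ if z i = z j then (1 / (m : ℝ)) else 0
          split_ifs
          · positivity
          · exact le_rfl) (Finset.mem_univ i)
    rw [if_pos rfl] at h2
    exact h2
  have hwX : ∀ v, w v ≠ 0 → |X1 v| ≤ ((t + τ : ℕ) : ℤ) := by
    intro v hv
    by_contra hcon
    apply hv
    rw [hw]
    apply Finset.sum_eq_zero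
    intro i _
    rw [if_neg]
    intro hvi
    apply hcon
    rw [hvi, hz]
    show |X1 (p i 0)| ≤ _
    rw [hp3 i]
    have h2 : (((i : ℕ) * b : ℕ) : ℤ) ≤ (τ : ℤ) := by exact_mod_cast hib i
    have h3 : (0 : ℤ) ≤ (((i : ℕ) * b : ℕ) : ℤ) := by positivity
    calc |X1 y + (((i : ℕ) * b : ℕ) : ℤ)| ≤ |X1 y| + |(((i : ℕ) * b : ℕ) : ℤ)| := abs_add_le _ _
      _ = |X1 y| + (((i : ℕ) * b : ℕ) : ℤ) := by rw [abs_of_nonneg h3]
      _ ≤ (t : ℤ) + (τ : ℤ) := by linarith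
      _ = ((t + τ : ℕ) : ℤ) := by push_cast; ring
  set Lg := Real.log (2 + 64 * (T' : ℝ) / (b : ℝ) ^ 2) with hLg
  have hb0 : (0 : ℝ) < b := by linarith
  have hLg0 : 0 ≤ Lg := by
    apply Real.log_nonneg
    have : 0 ≤ 64 * (T' : ℝ) / (b : ℝ) ^ 2 := by positivity
    linarith
  have hLgΛ : Lg ≤ Λ := by
    refine le_trans ?_ hΛ
    apply Real.log_le_log
    · have : 0 ≤ 64 * (T' : ℝ) / (b : ℝ) ^ 2 := by positivity
      linarith
    · have h2 : 64 * (T' : ℝ) / (b : ℝ) ^ 2 ≤ 64 * (T' : ℝ) := by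
        apply div_le_self (by positivity)
        nlinarith
      have h3 : (T' : ℝ) ≤ T := by
        have : T' ≤ T := by omega
        exact_mod_cast this
      linarith
  have hLg2 : Lg ^ 2 ≤ Λ ^ 2 := pow_le_pow_left₀ hLg0 hLgΛ 2
  have ha0 : 0 ≤ a0 := by
    refine le_trans ?_ ha
    positivity
  have haL : 80 * m * Real.sqrt Lg / b ≤ a0 := by
    refine le_trans ?_ ha
    apply div_le_div_of_nonneg_right _ hb0.le
    apply mul_le_mul_of_nonneg_left (Real.sqrt_le_sqrt hLgΛ) (by positivity)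
  have hs'0 : 0 ≤ s' := by
    rw [hs']
    apply div_nonneg hs2.le
    nlinarith
  have hstrip0 : ∀ (i : Fin m) v, 0 ≤ strip w (X1 (z i)) (X1 (z i)) v := by
    intro i v
    unfold strip
    split_ifs
    · exact hw0 v
    · exact le_rfl
  have hstrip : ∀ i : Fin m, 1 / (m : ℝ) ≤ ∑ v, strip w (X1 (z i)) (X1 (z i)) v := by
    intro i
    have h2 : strip w (X1 (z i)) (X1 (z i)) (z i) ≤ ∑ v, strip w (X1 (z i)) (X1 (z i)) v :=
      Finset.single_le_sum (f := fun v => strip w (X1 (z i)) (X1 (z i)) v)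
        (fun v _ => hstrip0 i v) (Finset.mem_univ (z i))
    have h3 : strip w (X1 (z i)) (X1 (z i)) (z i) = w (z i) := by
      unfold strip
      rw [if_pos ⟨le_rfl, le_rfl⟩]
    rw [h3] at h2
    exact (hwz i).trans h2
  have hsU : 0 ≤ s' * UU s' T' := mul_nonneg hs'0 (le_trans zero_le_one (UU_ge s' hs'0 T'))
  have hmain := hL C0 N0 M W hW Ω P s2 κ s' η w (t + τ) T' m b (fun i => X1 (z i))
    (fun i => X1 (z i)) Lg a0 (1 / (m : ℝ)) D hs2.le hη.1 hT'1 hm (by omega) (by omega) hw0 hwX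
    (fun i => le_rfl) (fun i j hij => by
      show X1 (p i 0) + (b : ℤ) ≤ X1 (p j 0)
      rw [hp3 i, hp3 j]
      have h2 : (i : ℕ) + 1 ≤ (j : ℕ) := hij
      have h3 : ((i : ℕ) + 1) * b ≤ (j : ℕ) * b := Nat.mul_le_mul_right b h2
      have h4 : (((i : ℕ) * b + b : ℕ) : ℤ) ≤ (((j : ℕ) * b : ℕ) : ℤ) := by
        have : (i : ℕ) * b + b ≤ (j : ℕ) * b := by linarith
        exact_mod_cast this
      have h5 : (((i : ℕ) * b + b : ℕ) : ℤ) = (((i : ℕ) * b : ℕ) : ℤ) + (b : ℤ) := by push_cast; ring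
      rw [h5] at h4
      linarith) hLg haL ha' hs' (by positivity) hstrip hD (fun i => by
      have h2 : ∑ n ∈ Finset.Icc 1 T', bb W a0 (strip w (X1 (z i)) (X1 (z i))) n ≤
          (∑ v, strip w (X1 (z i)) (X1 (z i)) v) ^ 2 * RR T' := by
        unfold RR
        rw [Finset.mul_sum]
        apply Finset.sum_le_sum
        intro n _
        unfold bb
        exact min_le_left _ _
      calc s' * UU s' T' * ∑ n ∈ Finset.Icc 1 T', bb W a0 (strip w (X1 (z i)) (X1 (z i))) n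
          ≤ s' * UU s' T' * ((∑ v, strip w (X1 (z i)) (X1 (z i)) v) ^ 2 * RR T') :=
            mul_le_mul_of_nonneg_left h2 hsU
        _ = s' * UU s' T' * RR T' * (∑ v, strip w (X1 (z i)) (X1 (z i)) v) ^ 2 := by ring
        _ ≤ (D - 1) * (∑ v, strip w (X1 (z i)) (X1 (z i)) v) ^ 2 :=
            mul_le_mul_of_nonneg_right (hU T' (by omega)) (sq_nonneg _))
  -- the set inclusion
  have hincl : {ω | Zr W (cfg η ω) T y < Real.exp (-u)} ⊆
      (⋃ i ∈ (Finset.univ : Finset (Fin m)),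
        {ω | ∏ k ∈ Finset.range τ, (1 + η (T' + k + 1) (p i k) ω) < Real.exp (-(2 * (τ : ℝ)))}) ∪
      {ω | ∑ v, w v * Zr W (cfg η ω) T' v <
        1 / (m : ℝ) / 4 * Real.exp (-(CL * (m : ℝ) ^ 2 * Lg ^ 2))} := by
    intro ω hω
    simp only [Set.mem_ofPred_eq] at hω
    by_contra hcon
    simp only [Set.mem_union, Set.mem_iUnion, Set.mem_ofPred_eq, not_or, not_exists, not_lt,
      Finset.mem_univ, true_and, exists_prop] at hcon
    obtain ⟨hc1, hc2⟩ := hcon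
    have hxgt : ∀ n v, -1 < cfg η ω n v := fun n v => hη.1.gt n v ω
    have hZ0 : ∀ v, 0 < Zr W (cfg η ω) T' v := fun v =>
      (hMEAS (ZMod M × ZMod M) C0 N0 W Ω P s2 κ η hη.1).2.1 (cfg η ω) T' v hxgt
    have h4τ : (0 : ℝ) < (1 / 4) ^ τ := by positivity
    have hlow : ∀ i : Fin m, (1 / 4) ^ τ * Real.exp (-(2 * (τ : ℝ))) * Zr W (cfg η ω) T' (z i) ≤
        Zr W (cfg η ω) T y := by
      intro i
      have h2 := hP1 (cfg η ω) T' τ (p i) hxgt (hp2 i)
      rw [hp1 i, ← hT'] at h2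
      refine le_trans ?_ h2
      apply mul_le_mul_of_nonneg_right _ (hZ0 _).le
      apply mul_le_mul_of_nonneg_left (hc1 i) h4τ.le
    have hsum : ∑ v, w v * Zr W (cfg η ω) T' v = ∑ i : Fin m, 1 / (m : ℝ) * Zr W (cfg η ω) T' (z i) := by
      rw [hw]
      simp_rw [Finset.sum_mul]
      rw [Finset.sum_comm]
      refine Finset.sum_congr rfl fun i _ => ?_
      simp only [ite_mul, zero_mul, Finset.sum_ite_eq', Finset.mem_univ, if_true]
    have havg : (1 / 4) ^ τ * Real.exp (-(2 * (τ : ℝ))) * ∑ v, w v * Zr W (cfg η ω) T' v ≤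
        Zr W (cfg η ω) T y := by
      rw [hsum, Finset.mul_sum]
      calc ∑ i : Fin m, (1 / 4) ^ τ * Real.exp (-(2 * (τ : ℝ))) *
            (1 / (m : ℝ) * Zr W (cfg η ω) T' (z i))
          = ∑ i : Fin m, 1 / (m : ℝ) *
            ((1 / 4) ^ τ * Real.exp (-(2 * (τ : ℝ))) * Zr W (cfg η ω) T' (z i)) := by
            refine Finset.sum_congr rfl fun i _ => ?_
            ring
        _ ≤ ∑ i : Fin m, 1 / (m : ℝ) * Zr W (cfg η ω) T y := by
            apply Finset.sum_le_sum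
            intro i _
            exact mul_le_mul_of_nonneg_left (hlow i) (by positivity)
        _ = Zr W (cfg η ω) T y := by
            rw [Finset.sum_const, Finset.card_univ, Fintype.card_fin, nsmul_eq_mul]
            field_simp
    have h5 : Real.exp (-(2 * (τ : ℝ))) ≤ (1 / 4) ^ τ := by
      have h6 := four_pow τ
      have h7 : (1 / 4 : ℝ) ^ τ = (4 ^ τ)⁻¹ := by
        rw [one_div, inv_pow]
      rw [h7, Real.exp_neg]
      exact inv_anti₀ (by positivity) h6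
    have h8 : Real.exp (-(4 * (τ : ℝ))) * (1 / (m : ℝ) / 4 * Real.exp (-(CL * (m : ℝ) ^ 2 * Lg ^ 2)))
        ≤ Zr W (cfg η ω) T y := by
      refine le_trans ?_ havg
      apply mul_le_mul _ hc2 (by positivity) (by positivity)
      have h9 : Real.exp (-(4 * (τ : ℝ))) = Real.exp (-(2 * (τ : ℝ))) * Real.exp (-(2 * (τ : ℝ))) := by
        rw [← Real.exp_add]
        congr 1
        ring
      rw [h9]
      exact mul_le_mul_of_nonneg_right h5 (Real.exp_pos _).le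
    have h10 : 1 / (m : ℝ) / 4 = Real.exp (-Real.log (4 * m)) := by
      rw [Real.exp_neg, Real.exp_log (by linarith)]
      field_simp
    rw [h10, ← Real.exp_add, ← Real.exp_add] at h8
    have h11 : Real.exp (-u) ≤ Real.exp (-(4 * (τ : ℝ)) + (-Real.log (4 * m) +
        -(CL * (m : ℝ) ^ 2 * Lg ^ 2))) := by
      apply Real.exp_le_exp.2
      have h12 : (τ : ℝ) = (m : ℝ) * b := by
        rw [hτ]
        push_cast
        ring
      have h13 : CL * (m : ℝ) ^ 2 * Lg ^ 2 ≤ CL * (m : ℝ) ^ 2 * Λ ^ 2 :=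
        mul_le_mul_of_nonneg_left hLg2 (by positivity)
      rw [h12]
      linarith
    linarith
  have hτR : (τ : ℝ) = (m : ℝ) * b := by
    rw [hτ]
    push_cast
    ring
  have hE0 : 0 < Real.exp (-((m : ℝ) / (16 * D))) := Real.exp_pos _
  have hU1 : P.real (⋃ i ∈ (Finset.univ : Finset (Fin m)),
        {ω | ∏ k ∈ Finset.range τ, (1 + η (T' + k + 1) (p i k) ω) < Real.exp (-(2 * (τ : ℝ)))}) ≤
      Real.exp (-((m : ℝ) / (16 * D))) := by
    refine le_trans (measureReal_biUnion_finset_le _ _) ?_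
    have h2 : ∀ i ∈ (Finset.univ : Finset (Fin m)),
        P.real {ω | ∏ k ∈ Finset.range τ, (1 + η (T' + k + 1) (p i k) ω) <
          Real.exp (-(2 * (τ : ℝ)))} ≤ Real.exp (-(τ : ℝ)) := by
      intro i _
      have h3 := hP3 Ω P s2 κ η hη T' τ (p i) (2 * (τ : ℝ))
      have h4 : (τ : ℝ) - 2 * τ = -τ := by ring
      rw [h4] at h3
      exact h3
    refine (Finset.sum_le_sum h2).trans ?_
    rw [Finset.sum_const, Finset.card_univ, Fintype.card_fin, nsmul_eq_mul]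
    have h5 : (m : ℝ) ≤ Real.exp m := by
      have := Real.add_one_le_exp (m : ℝ)
      linarith
    calc (m : ℝ) * Real.exp (-(τ : ℝ)) ≤ Real.exp m * Real.exp (-(τ : ℝ)) :=
          mul_le_mul_of_nonneg_right h5 (Real.exp_pos _).le
      _ = Real.exp ((m : ℝ) - τ) := by
          rw [← Real.exp_add]
          congr 1
      _ ≤ Real.exp (-((m : ℝ) / (16 * D))) := by
          apply Real.exp_le_exp.2
          rw [hτR]
          linarith
  have hU2 : (1 - 1 / (16 * D)) ^ m ≤ Real.exp (-((m : ℝ) / (16 * D))) := by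
    have h2 : 1 - 1 / (16 * D) ≤ Real.exp (-(1 / (16 * D))) := Real.one_sub_le_exp_neg _
    have h3 : 0 ≤ 1 - 1 / (16 * D) := by
      have : 1 / (16 * D) ≤ 1 := by
        rw [div_le_one (by linarith)]
        linarith
      linarith
    calc (1 - 1 / (16 * D)) ^ m ≤ Real.exp (-(1 / (16 * D))) ^ m := pow_le_pow_left₀ h3 h2 m
      _ = Real.exp (-((m : ℝ) / (16 * D))) := by
          rw [← Real.exp_nat_mul]
          congr 1
          ring
  calc P.real {ω | Zr W (cfg η ω) T y < Real.exp (-u)}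
      ≤ P.real ((⋃ i ∈ (Finset.univ : Finset (Fin m)),
        {ω | ∏ k ∈ Finset.range τ, (1 + η (T' + k + 1) (p i k) ω) < Real.exp (-(2 * (τ : ℝ)))}) ∪
      {ω | ∑ v, w v * Zr W (cfg η ω) T' v <
        1 / (m : ℝ) / 4 * Real.exp (-(CL * (m : ℝ) ^ 2 * Lg ^ 2))}) :=
        measureReal_mono hincl (measure_ne_top P _)
    _ ≤ _ + _ := measureReal_union_le _ _
    _ ≤ Real.exp (-((m : ℝ) / (16 * D))) + Real.exp (-((m : ℝ) / (16 * D))) :=
        add_le_add hU1 (hmain.trans hU2)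
    _ = 2 * Real.exp (-((m : ℝ) / (16 * D))) := by ring

theorem log_le (T : ℕ) : Real.log (2 + 64 * (T : ℝ)) ≤ 6 + Real.log (1 + (T : ℝ)) := by
  have hT : (0 : ℝ) ≤ T := Nat.cast_nonneg T
  have h64 : Real.log 64 ≤ 6 := by
    have h := four_pow 3
    have h2 : (64 : ℝ) ≤ Real.exp 6 := by
      norm_num at h
      exact h
    have h3 := Real.log_le_log (by norm_num) h2
    rwa [Real.log_exp] at h3
  calc Real.log (2 + 64 * (T : ℝ)) ≤ Real.log (64 * (1 + (T : ℝ))) :=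
        Real.log_le_log (by linarith) (by linarith)
    _ = Real.log 64 + Real.log (1 + (T : ℝ)) := Real.log_mul (by norm_num) (by linarith)
    _ ≤ 6 + Real.log (1 + (T : ℝ)) := by linarith

theorem fin_core {CL : ℝ} (hCL1 : 1 ≤ CL) (hL : LTCc CL) (hPTH : S_PTH) (hMEAS : S_MEAS)
    (W : Wlk (ZMod M × ZMod M) C0 N0) (hW : IsTor W)
    {Ω : Type} [MeasurableSpace Ω] (P : Measure Ω) [IsProbabilityMeasure P] (s2 κ s' : ℝ)
    (η : ℕ → ZMod M × ZMod M → Ω → ℝ) (y : ZMod M × ZMod M) (t T : ℕ) (v L1 x D : ℝ)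
    (hs2 : 0 < s2) (hη : NoiseI P s2 κ η) (h1 : |X1 y| ≤ t) (htT : t + T ≤ N0)
    (hx : 2 ≤ x) (hL1 : 1 ≤ L1) (hΛ : Real.log (2 + 64 * (T : ℝ)) ≤ L1)
    (hs' : s' = s2 / (1 - (1 / x) ^ 2)) (hD : 1 ≤ D)
    (hU : ∀ T' ≤ T, s' * UU s' T' * RR T' ≤ D - 1)
    (hv1 : 341 * CL * L1 * x ≤ v ^ 2) (hv2 : 64 * D ≤ v) :
    P.real {ω | Zr W (cfg η ω) T y < Real.exp (-(v ^ 8))} ≤ Real.exp (-v) := by
  have hx0 : 0 < x := by linarith
  have hv64 : 64 ≤ v := by linarith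
  have hv0 : 0 < v := by linarith
  set m := ⌊v ^ 2⌋₊ with hm
  have hv2' : 0 ≤ v ^ 2 := by positivity
  have hm1 : (m : ℝ) ≤ v ^ 2 := Nat.floor_le hv2'
  have hm2 : v ^ 2 < (m : ℝ) + 1 := Nat.lt_floor_add_one _
  have hv22 : 64 * v ≤ v ^ 2 := by nlinarith
  have hm3 : v ^ 2 / 2 ≤ (m : ℝ) := by linarith
  have hmR : (1 : ℝ) ≤ (m : ℝ) := by linarith
  have hm4 : 1 ≤ m := by exact_mod_cast hmR
  set r := 40 * (m : ℝ) * L1 * x with hr
  have hr0 : 0 ≤ r := by positivity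
  set b := 2 * (⌈r⌉₊ + 1) with hb
  have hb1 : 2 ≤ b := by omega
  have hbe : Even b := even_two_mul _
  have hbR : (b : ℝ) = 2 * ((⌈r⌉₊ : ℝ) + 1) := by
    rw [hb]
    push_cast
    ring
  have hb2 : 2 * r ≤ (b : ℝ) := by
    have := Nat.le_ceil r
    rw [hbR]
    linarith
  have hb3 : (b : ℝ) ≤ 2 * r + 4 := by
    have := Nat.ceil_lt_add_one hr0
    rw [hbR]
    linarith
  have hb0 : (0 : ℝ) < b := by
    have : (2 : ℝ) ≤ b := by exact_mod_cast hb1
    linarith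
  have hsq : Real.sqrt L1 ≤ L1 := by
    rw [Real.sqrt_le_left (by linarith)]
    nlinarith
  have hcost : 4 * ((m : ℝ) * b) + CL * (m : ℝ) ^ 2 * L1 ^ 2 + Real.log (4 * m) ≤ v ^ 8 := by
    have hm0 : (0 : ℝ) ≤ m := by linarith
    have hmm : (m : ℝ) ≤ (m : ℝ) ^ 2 := by nlinarith
    have hlx : 1 ≤ L1 * x := by nlinarith
    have hlx0 : 0 ≤ L1 * x := by linarith
    have hlxx : L1 * x ≤ (L1 * x) ^ 2 := by nlinarith
    have hL2 : L1 ^ 2 ≤ (L1 * x) ^ 2 := by
      apply pow_le_pow_left₀ (by linarith)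
      nlinarith
    have hq1 : 1 ≤ (L1 * x) ^ 2 := by linarith
    have e1 : 4 * ((m : ℝ) * b) ≤ 336 * (m : ℝ) ^ 2 * (L1 * x) ^ 2 := by
      calc 4 * ((m : ℝ) * b) ≤ 4 * ((m : ℝ) * (2 * r + 4)) := by
            have := mul_le_mul_of_nonneg_left hb3 hm0
            linarith
        _ = 320 * (m : ℝ) ^ 2 * (L1 * x) + 16 * (m : ℝ) := by
            rw [hr]
            ring
        _ ≤ 320 * (m : ℝ) ^ 2 * (L1 * x) ^ 2 + 16 * ((m : ℝ) ^ 2 * (L1 * x) ^ 2) := by
            have h2 : (m : ℝ) ^ 2 * (L1 * x) ≤ (m : ℝ) ^ 2 * (L1 * x) ^ 2 :=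
              mul_le_mul_of_nonneg_left hlxx (by positivity)
            have h3 : (m : ℝ) ^ 2 * 1 ≤ (m : ℝ) ^ 2 * (L1 * x) ^ 2 :=
              mul_le_mul_of_nonneg_left hq1 (by positivity)
            linarith
        _ = 336 * (m : ℝ) ^ 2 * (L1 * x) ^ 2 := by ring
    have e2 : CL * (m : ℝ) ^ 2 * L1 ^ 2 ≤ CL * (m : ℝ) ^ 2 * (L1 * x) ^ 2 :=
      mul_le_mul_of_nonneg_left hL2 (by positivity)
    have e3 : Real.log (4 * m) ≤ 4 * ((m : ℝ) ^ 2 * (L1 * x) ^ 2) := by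
      have h2 : Real.log (4 * m) ≤ 4 * m := Real.log_le_self (by positivity)
      have h3 : (m : ℝ) ^ 2 * 1 ≤ (m : ℝ) ^ 2 * (L1 * x) ^ 2 :=
        mul_le_mul_of_nonneg_left hq1 (by positivity)
      linarith
    have hQ : 0 ≤ (m : ℝ) ^ 2 * (L1 * x) ^ 2 := by positivity
    have e4 : 4 * ((m : ℝ) * b) + CL * (m : ℝ) ^ 2 * L1 ^ 2 + Real.log (4 * m) ≤
        341 * CL * ((m : ℝ) ^ 2 * (L1 * x) ^ 2) := by
      have h5 : 340 * ((m : ℝ) ^ 2 * (L1 * x) ^ 2) ≤ 340 * CL * ((m : ℝ) ^ 2 * (L1 * x) ^ 2) := by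
        apply mul_le_mul_of_nonneg_right _ hQ
        linarith
      nlinarith
    have hv4 : (0 : ℝ) ≤ v ^ 4 := by positivity
    have e5 : (m : ℝ) ^ 2 ≤ v ^ 4 := by
      have : (m : ℝ) ^ 2 ≤ (v ^ 2) ^ 2 := pow_le_pow_left₀ hm0 hm1 2
      calc (m : ℝ) ^ 2 ≤ (v ^ 2) ^ 2 := this
        _ = v ^ 4 := by ring
    have e6 : 341 * CL * (L1 * x) ^ 2 ≤ v ^ 4 := by
      have h6 : (341 * CL * L1 * x) ^ 2 ≤ (v ^ 2) ^ 2 := pow_le_pow_left₀ (by positivity) hv1 2
      have h7 : 341 * CL * (L1 * x) ^ 2 ≤ (341 * CL * L1 * x) ^ 2 := by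
        have h8 : (341 * CL * L1 * x) ^ 2 = (341 * CL) * (341 * CL * (L1 * x) ^ 2) := by ring
        rw [h8]
        have h9 : 0 ≤ 341 * CL * (L1 * x) ^ 2 := by positivity
        have h10 : (1 : ℝ) ≤ 341 * CL := by linarith
        have := mul_le_mul_of_nonneg_right h10 h9
        linarith
      calc 341 * CL * (L1 * x) ^ 2 ≤ (v ^ 2) ^ 2 := h7.trans h6
        _ = v ^ 4 := by ring
    calc 4 * ((m : ℝ) * b) + CL * (m : ℝ) ^ 2 * L1 ^ 2 + Real.log (4 * m)
        ≤ 341 * CL * ((m : ℝ) ^ 2 * (L1 * x) ^ 2) := e4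
      _ = (m : ℝ) ^ 2 * (341 * CL * (L1 * x) ^ 2) := by ring
      _ ≤ v ^ 4 * v ^ 4 := mul_le_mul e5 e6 (by positivity) hv4
      _ = v ^ 8 := by ring
  have hmain := core hCL1 hL hPTH hMEAS W hW P s2 κ s' η y t T m b (v ^ 8) L1 (1 / x) D hs2 hη h1 htT
    hm4 hb1 hbe hΛ (by
      rw [div_le_div_iff₀ hb0 hx0, one_mul]
      refine le_trans ?_ hb2
      rw [hr]
      have h2 : 80 * (m : ℝ) * x * Real.sqrt L1 ≤ 80 * (m : ℝ) * x * L1 :=
        mul_le_mul_of_nonneg_left hsq (by positivity)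
      linarith) (by
      apply one_div_le_one_div_of_le (by norm_num) hx) hs' hD hU hcost
  refine hmain.trans ?_
  have hD0 : 0 < 16 * D := by linarith
  have h3 : 2 * v ≤ (m : ℝ) / (16 * D) := by
    rw [le_div_iff₀ hD0]
    nlinarith
  have h4 : Real.exp (-((m : ℝ) / (16 * D))) ≤ Real.exp (-(2 * v)) := Real.exp_le_exp.2 (by linarith)
  have h5 : 2 ≤ Real.exp v := by
    have := Real.add_one_le_exp v
    linarith
  have h6 : Real.exp (-(2 * v)) = Real.exp (-v) * (Real.exp v)⁻¹ := by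
    rw [← Real.exp_neg, ← Real.exp_add]
    congr 1
    ring
  have h7 : (Real.exp v)⁻¹ ≤ 1 / 2 := by
    rw [inv_le_comm₀ (Real.exp_pos _) (by norm_num)]
    norm_num
    exact h5
  calc 2 * Real.exp (-((m : ℝ) / (16 * D))) ≤ 2 * Real.exp (-(2 * v)) := by linarith
    _ = 2 * (Real.exp (-v) * (Real.exp v)⁻¹) := by rw [h6]
    _ ≤ 2 * (Real.exp (-v) * (1 / 2)) := by
        have := mul_le_mul_of_nonneg_left h7 (Real.exp_pos (-v)).le
        linarith
    _ = Real.exp (-v) := by ring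

/-- the eighth root -/
theorem root8 {u : ℝ} (hu : 1 ≤ u) : ∃ v : ℝ, 1 ≤ v ∧ v ^ 8 = u ∧ u ^ (1 / 10 : ℝ) ≤ v := by
  have hu0 : 0 < u := by linarith
  refine ⟨u ^ (1 / 8 : ℝ), Real.one_le_rpow hu (by norm_num), ?_, ?_⟩
  · rw [← Real.rpow_natCast, ← Real.rpow_mul hu0.le]
    norm_num
  · exact Real.rpow_le_rpow_of_exponent_le hu (by norm_num)

theorem le_of_pow8 {a v : ℝ} (hv : 0 ≤ v) (h : a ^ 8 ≤ v ^ 8) : a ≤ v := by
  by_contra hcon
  push Not at hcon
  have := pow_lt_pow_left₀ hcon hv (by norm_num : (8 : ℕ) ≠ 0)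
  linarith

theorem t_LTP1 : S_LTP1 := by
  intro hLTC hDZB hDSM hNB hIND hMEAS hCMP hSUR hPRD hPZ hRR hUU hUUC hPTH _ _
  obtain ⟨CL, hCL1, hCL⟩ := hLTC hDZB hDSM hNB hIND hMEAS hCMP hSUR hPRD hPZ
  have hL : LTCc CL := hCL
  constructor
  · -- part (a)
    intro C0 _
    set K := 4092 * CL with hK
    have hK1 : 1 ≤ K := by linarith
    refine ⟨K ^ 8, one_le_pow₀ hK1, ?_⟩
    intro N0 M _ W hW Ω _ P _ s2 κ η y t T u hs2 hη h1 _ htT hsR hu
    set Y := 1 + Real.log (1 + (T : ℝ)) with hY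
    have hT0 : (0 : ℝ) ≤ T := Nat.cast_nonneg T
    have hY1 : 1 ≤ Y := by
      have := Real.log_nonneg (by linarith : (1 : ℝ) ≤ 1 + T)
      linarith
    have hKY : 1 ≤ K * Y := by nlinarith
    have hKY8 : (K * Y) ^ 8 ≤ u := by
      rw [mul_pow]
      exact hu
    have hu1 : 1 ≤ u := le_trans (one_le_pow₀ hKY) hKY8
    obtain ⟨v, hv1, hvu, hv10⟩ := root8 hu1
    have hv0 : 0 ≤ v := by linarith
    have hKv : K * Y ≤ v := le_of_pow8 hv0 (by rw [hvu]; exact hKY8)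
    have hvv : v ≤ v ^ 2 := by nlinarith
    have hres := fin_core hCL1 hL hPTH hMEAS W hW P s2 κ (s2 / (1 - (1 / 2) ^ 2)) η y t T v (6 * Y) 2 2
      hs2 hη h1 htT le_rfl (by linarith) (by
        have := log_le T
        linarith) rfl (by norm_num) (fun T' hT' => by
        have e1 : s2 / (1 - (1 / 2) ^ 2) = 4 / 3 * s2 := by
          norm_num
          ring
        rw [e1]
        have h2 : RR T' ≤ RR T := RR_mono hT'
        have h3 : 4 / 3 * s2 * RR T' ≤ 1 / 3 := by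
          have : s2 * RR T' ≤ s2 * RR T := mul_le_mul_of_nonneg_left h2 hs2.le
          linarith
        have h4 : 0 ≤ 4 / 3 * s2 * RR T' := mul_nonneg (by positivity) (RR_nn T')
        obtain ⟨h5, h6⟩ := hUU.1 (4 / 3 * s2) T' (by positivity) (by linarith)
        have h7 : 1 / (1 - 4 / 3 * s2 * RR T') ≤ 3 / 2 := by
          rw [div_le_div_iff₀ (by linarith) (by norm_num)]
          linarith
        have h8 : UU (4 / 3 * s2) T' ≤ 3 / 2 := h6.trans h7
        calc 4 / 3 * s2 * UU (4 / 3 * s2) T' * RR T' = (4 / 3 * s2 * RR T') * UU (4 / 3 * s2) T' := by ring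
          _ ≤ 1 / 3 * (3 / 2) := mul_le_mul h3 h8 (by linarith) (by norm_num)
          _ ≤ 2 - 1 := by norm_num) (by
        calc 341 * CL * (6 * Y) * 2 = K * Y := by rw [hK]; ring
          _ ≤ v ^ 2 := hKv.trans hvv) (by
        have : 4092 ≤ K * Y := by nlinarith
        linarith)
    rw [hvu] at hres
    refine hres.trans ?_
    apply Real.exp_le_exp.2
    linarith
  · -- part (b)
    intro C0 θ1 _ hθ
    obtain ⟨C1, hC1, hC⟩ := hUUC hRR hUU θ1 hθ
    set θ := 1 + θ1 with hθd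
    have hθ1 : 1 ≤ θ := by linarith
    set C := 3410 * CL * C1 * θ with hCd
    have hCC1 : 1 ≤ CL * C1 := by nlinarith
    have hCCθ : 1 ≤ CL * C1 * θ := by nlinarith
    have hC3410 : 3410 ≤ C := by
      rw [hCd]
      nlinarith
    have hCge1 : C1 ≤ C := by
      have h2 : 1 ≤ CL * θ := by nlinarith
      have h3 : C = C1 * (3410 * (CL * θ)) := by rw [hCd]; ring
      rw [h3]
      nlinarith
    have hCge2 : 3410 * CL * θ ≤ C := by
      have h2 : 0 ≤ 3410 * CL * θ := by positivity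
      have h3 : C = 3410 * CL * θ * C1 := by rw [hCd]; ring
      rw [h3]
      nlinarith
    have hCge3 : 128 * C1 * θ ≤ C := by
      have h2 : 0 ≤ C1 * θ := by positivity
      have h3 : C = 3410 * CL * (C1 * θ) := by rw [hCd]; ring
      rw [h3]
      nlinarith
    refine ⟨C, by linarith, ?_⟩
    intro N0 M _ W hW Ω _ P _ s2 κ η y t T u hs2 hsC hη h1 _ htT hθR hu
    set x := 1 / s2 with hx
    have hC0 : 0 < C := by linarith
    have hxC : C ≤ x := by
      rw [hx, le_div_iff₀ hs2]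
      rw [le_div_iff₀ hC0] at hsC
      linarith
    have hx1 : 1 ≤ x := by linarith
    have hxs : 1 / x = s2 := by rw [hx, one_div_one_div]
    have hCx : 1 ≤ C * x := by nlinarith
    have hCx0 : 0 ≤ C * x := by linarith
    have huC : (C * x) ^ 40 ≤ u := by
      have e : C * x = C / s2 := by rw [hx]; ring
      rw [e]
      exact hu
    have hu1 : 1 ≤ u := le_trans (one_le_pow₀ hCx) huC
    obtain ⟨v, hv1, hvu, hv10⟩ := root8 hu1
    have hv0 : 0 ≤ v := by linarith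
    have hCv : C * x ≤ v := by
      have h5 : (C * x) ^ 5 ≤ v := le_of_pow8 hv0 (by
        rw [hvu, ← pow_mul]
        exact huC)
      have h6 : C * x ≤ (C * x) ^ 5 := le_self_pow₀ hCx (by norm_num)
      exact h6.trans h5
    have hRT : RR T ≤ x + θ1 := by linarith
    have hRTx : RR T ≤ θ * x := by
      rw [hθd]
      nlinarith
    have hlogT : Real.log (1 + (T : ℝ)) ≤ 4 * (θ * x) := by
      have h2 := hRR.2.2.2.2.2.1 0 T (Nat.zero_le T)
      have h3 : RR 0 = 0 := by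
        unfold RR
        simp
      rw [h3] at h2
      have h4 : ((T : ℝ) + 1) / (((0 : ℕ) : ℝ) + 1) = 1 + (T : ℝ) := by
        push_cast
        ring
      rw [h4] at h2
      linarith
    have hθx : 1 ≤ θ * x := by nlinarith
    have hres := fin_core hCL1 hL hPTH hMEAS W hW P s2 κ (s2 / (1 - s2 ^ 2)) η y t T v (10 * (θ * x)) x
      (1 + C1 * (θ * x)) hs2 hη h1 htT (by linarith) (by linarith) (by
        have := log_le T
        linarith) (by rw [hxs]) (by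
        have : 0 ≤ C1 * (θ * x) := by positivity
        linarith) (fun T' hT' => by
        have h2 : RR T' ≤ RR T := RR_mono hT'
        have h3 : s2 ≤ 1 / C1 := hsC.trans (one_div_le_one_div_of_le (by linarith) hCge1)
        obtain ⟨-, -, -, h4⟩ := hC s2 T' hs2 h3 (by linarith)
        have h5 := h4 _ rfl
        have h6 : s2 / (1 - s2 ^ 2) * UU (s2 / (1 - s2 ^ 2)) T' * RR T' ≤ C1 * (θ * x) :=
          mul_le_mul h5 (h2.trans hRTx) (RR_nn T') (by linarith)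
        linarith) (by
        have h2 : 341 * CL * (10 * (θ * x)) * x = (3410 * CL * θ) * (x * x) := by ring
        rw [h2]
        have h3 : (C * x) ^ 2 ≤ v ^ 2 := pow_le_pow_left₀ hCx0 hCv 2
        have h4 : (3410 * CL * θ) * (x * x) ≤ C * (x * x) :=
          mul_le_mul_of_nonneg_right hCge2 (by positivity)
        have h5 : C * (x * x) ≤ (C * x) ^ 2 := by
          have h6 : (C * x) ^ 2 = C * (C * (x * x)) := by ring
          rw [h6]
          have h7 : 0 ≤ C * (x * x) := by positivity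
          nlinarith
        linarith) (by
        have h2 : 64 * (1 + C1 * (θ * x)) ≤ 128 * C1 * θ * x := by
          have h3 : 1 ≤ C1 * (θ * x) := by nlinarith
          linarith
        have h4 : 128 * C1 * θ * x ≤ C * x := mul_le_mul_of_nonneg_right hCge3 (by linarith)
        linarith)
    rw [hvu] at hres
    refine hres.trans ?_
    apply Real.exp_le_exp.2
    linarith

end Pool.Agent.H249.CW
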